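import Mathlib
import Pool.Agent.H9.SJ

namespace Pool.Agent.Results.MP_9d843c_co.Full

open Finset Pool.Agent.H9.SJ

/-- Vectors in `{-1,0,1}^n` with exactly `k` nonzero coordinates. -/
def V (n k : ℕ) : Type :=
  {v : Fin n → ℤ // (∀ i, v i = -1 ∨ v i = 0 ∨ v i = 1) ∧ (univ.filter fun i => v i ≠ 0).card = k}

/-- The graph `J±(n,k,t)`: distinct vertices are adjacent iff their scalar product is `t`. -/
def J (n k : ℕ) (t : ℤ) : SimpleGraph (V n k) where
  Adj u v := u ≠ v ∧ ∑ i, u.1 i * v.1 i = t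
  symm := ⟨fun u v h => ⟨h.1.symm, by rw [← h.2]; exact sum_congr rfl fun i _ => mul_comm _ _⟩⟩
  loopless := ⟨fun u h => h.1 rfl⟩

def vec {n : ℕ} (T : Fin 4 → Fin n) : Fin n → ℤ := fun x => ∑ j, if T j = x then sg j else 0

theorem vec_at {n : ℕ} {T : Fin 4 → Fin n} (h : Function.Injective T) (j : Fin 4) :
    vec T (T j) = sg j := by
  simp [vec, h.eq_iff]

theorem vec_off {n : ℕ} {T : Fin 4 → Fin n} {x : Fin n} (h : ∀ j, T j ≠ x) : vec T x = 0 := by
  simp [vec, h]

theorem vec_ok {n : ℕ} {T : Fin 4 → Fin n} (h : Function.Injective T) :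
    (∀ i, vec T i = -1 ∨ vec T i = 0 ∨ vec T i = 1) ∧
      (univ.filter fun i => vec T i ≠ 0).card = 4 := by
  have s1 : ∀ j, sg j = -1 ∨ sg j = 1 := by decide
  constructor
  · intro x
    by_cases q : ∃ j, T j = x
    · obtain ⟨j, rfl⟩ := q
      rw [vec_at h]; rcases s1 j with e | e <;> simp [e]
    · push Not at q; simp [vec_off q]
  · have : (univ.filter fun i => vec T i ≠ 0) = univ.image T := by
      ext x
      simp only [mem_filter, mem_univ, true_and, mem_image]
      constructor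
      · intro q; by_contra c; push Not at c; exact q (vec_off c)
      · rintro ⟨j, rfl⟩; rw [vec_at h]; rcases s1 j with e | e <;> simp [e]
    rw [this, card_image_of_injective _ h]; simp

theorem vec_ip {n : ℕ} (T U : Fin 4 → Fin n) : ∑ x, vec T x * vec U x = ip T U := by
  simp only [vec, ip, sum_mul_sum]
  rw [sum_comm]
  refine sum_congr rfl fun i _ => ?_
  rw [sum_comm]
  refine sum_congr rfl fun j _ => ?_
  rw [sum_eq_single (T i) (fun b _ hb => by simp [hb.symm]) (by simp)]
  by_cases h : T i = U j <;> simp [h, eq_comm]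

theorem result : ∀ C : ℕ, ∃ N : ℕ, ∀ n ≥ N,
    ((C * n : ℕ) : ℕ∞) < (J n 4 0).chromaticNumber := by
  classical
  intro C
  obtain ⟨N, hN⟩ := core (C + 1)
  refine ⟨N + 1, fun n hn => ?_⟩
  by_contra hc
  obtain ⟨col⟩ := (SimpleGraph.chromaticNumber_le_iff_colorable.1 (not_lt.1 hc)).mono
    (show C * n ≤ (C + 1) * n by nlinarith)
  refine hN n (by omega) (fun T => if h : Function.Injective T then col ⟨vec T, vec_ok h⟩
    else ⟨0, by nlinarith⟩) fun T U h1 h2 e z => ?_
  simp only [dif_pos h1, dif_pos h2] at e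
  refine col.valid (show (J n 4 0).Adj _ _ from ⟨fun q => ?_, (vec_ip T U).trans z⟩) e
  have q' : vec T = vec U := congrArg Subtype.val q
  rw [← vec_ip, ← q', vec_ip] at z
  simp only [ip, h1.eq_iff] at z
  revert z
  decide

end Pool.Agent.Results.MP_9d843c_co.Full
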